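import Mathlib
import Pool.Agent.Lib.MP_211e54_lc.Main

set_option autoImplicit false

namespace Pool.Agent.Results.MP_211e54_lc.DyadicWDF

open Pool.Agent.Lib.SymZF

/-- There is a model of `ZF` (with standard natural numbers) containing a set `A` which is
dyadically filterbase infinite and weakly Dedekind-finite. -/
theorem result : ∃ (M : Type) (E : M → M → Prop), IsZF E ∧ OmegaStd E ∧
    ∃ A : M, DyadicallyFilterbaseInfinite E A ∧ WeaklyDedekindFinite E A :=
  Pool.Agent.Lib.MP_211e54_lc.main

end Pool.Agent.Results.MP_211e54_lc.DyadicWDF
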